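import Pool.Agent.Helper73.QU.Sweep

/-!
# Conics over algebraically closed fields
-/

open MvPolynomial

namespace Pool.Agent.Helper73.QU

section

variable {K : Type*} [Field K]

theorem not_C_of_quadratic {l : RatFunc K} {b c : K → K}
    (h : ∀ z : K, l = RatFunc.C z → (RatFunc.X : RatFunc K) ^ 2 + RatFunc.C (b z) * RatFunc.X +
      RatFunc.C (c z) = 0) : ¬ ∃ z, l = RatFunc.C z := by
  rintro ⟨z, hz⟩
  have h1 := h z hz
  apply RatFunc.transcendental_X (K := K)
  refine ⟨Polynomial.X ^ 2 + Polynomial.C (b z) * Polynomial.X + Polynomial.C (c z), ?_, ?_⟩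
  · intro h2
    have h3 := congrArg (fun p => Polynomial.coeff p 2) h2
    simp at h3
  · simpa using h1

/-- a rational parametrisation of `ρ ^ 2 = R (l)` -/
theorem exists_param [IsAlgClosed K] (h2 : (2 : K) ≠ 0) (R : Polynomial K)
    (hR : R.natDegree ≤ 2) : ∃ l ρ : RatFunc K, Transcendental K l ∧
      ρ ^ 2 = Polynomial.aeval l R := by
  have hX : (RatFunc.X : RatFunc K) ≠ 0 := RatFunc.X_ne_zero
  have h2' : (2 : RatFunc K) ≠ 0 := by
    rw [← map_ofNat RatFunc.C 2, Ne, map_eq_zero]
    exact h2
  have hR' : R = Polynomial.C (R.coeff 0) + Polynomial.C (R.coeff 1) * Polynomial.X +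
      Polynomial.C (R.coeff 2) * Polynomial.X ^ 2 := by
    conv_lhs => rw [R.as_sum_range_C_mul_X_pow' (n := 3) (by omega)]
    simp [Finset.sum_range_succ]
  set α := R.coeff 2
  set β := R.coeff 1
  set γ := R.coeff 0
  have hev : ∀ l : RatFunc K, Polynomial.aeval l R = RatFunc.C γ + RatFunc.C β * l +
      RatFunc.C α * l ^ 2 := by
    intro l
    rw [hR']
    simp
  by_cases hα : α = 0
  · by_cases hβ : β = 0
    · obtain ⟨c, hc⟩ := IsAlgClosed.exists_pow_nat_eq γ (n := 2) two_pos
      refine ⟨RatFunc.X, RatFunc.C c, RatFunc.transcendental_X, ?_⟩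
      rw [hev, hα, hβ, map_zero, zero_mul, zero_mul, add_zero, add_zero, ← map_pow, hc]
    · have hβ' : (RatFunc.C β : RatFunc K) ≠ 0 := by rwa [Ne, map_eq_zero]
      refine ⟨(RatFunc.X ^ 2 - RatFunc.C γ) / RatFunc.C β, RatFunc.X, ?_, ?_⟩
      · apply RatFunc.transcendental_of_ne_C
        refine not_C_of_quadratic (b := fun _ => 0) (c := fun z => -γ - z * β) fun z hz => ?_
        rw [div_eq_iff hβ'] at hz
        simp only [map_zero, zero_mul, add_zero, map_sub, map_neg, map_mul]
        linear_combination hz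
      · rw [hev, hα, map_zero, zero_mul, add_zero]
        field_simp
        ring
  · have hα' : (RatFunc.C α : RatFunc K) ≠ 0 := by rwa [Ne, map_eq_zero]
    obtain ⟨c, hc⟩ := IsAlgClosed.exists_pow_nat_eq α (n := 2) two_pos
    set m : K := -β / (2 * α) with hm
    set D : K := m ^ 2 - γ / α with hD
    have e1 : β = -2 * α * m := by
      rw [hm]; field_simp
    have e2 : γ = α * (m ^ 2 - D) := by
      rw [hD]; field_simp; ring
    refine ⟨RatFunc.C m + (RatFunc.X + RatFunc.C D / RatFunc.X) / 2,
      RatFunc.C c * ((RatFunc.X - RatFunc.C D / RatFunc.X) / 2), ?_, ?_⟩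
    · apply RatFunc.transcendental_of_ne_C
      refine not_C_of_quadratic (b := fun z => -2 * (z - m)) (c := fun _ => D) fun z hz => ?_
      simp only [map_mul, map_sub, map_neg, map_ofNat]
      have h3 : (RatFunc.X + RatFunc.C D / RatFunc.X : RatFunc K) =
          2 * (RatFunc.C z - RatFunc.C m) := by
        rw [← hz]
        field_simp
        ring
      have h4 : (RatFunc.X ^ 2 + RatFunc.C D : RatFunc K) =
          2 * (RatFunc.C z - RatFunc.C m) * RatFunc.X := by
        rw [← h3]
        field_simp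
      linear_combination h4
    · rw [hev, e1, e2, ← hc]
      simp only [map_mul, map_pow, map_sub, map_neg, map_ofNat]
      field_simp
      ring

end

end Pool.Agent.Helper73.QU
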