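import Pool.Agent.Helper73.QU.Conic

/-!
# The function field of a double plane with a sweeping family of rational curves
-/

open MvPolynomial

namespace Pool.Agent.Helper73.QU

universe u v

/-- `P` becomes the product of a square and a polynomial of degree at most two on lines which
sweep out the plane -/
def GoodLine {F : Type u} [Field F] (P : MvPolynomial (Fin 2) F) : Prop :=
  ∃ (K₁ : Type u) (_ : Field K₁) (_ : IsAlgClosed K₁) (_ : Algebra F K₁) (u v a b : K₁)
    (A R : Polynomial K₁), Algebra.trdeg F K₁ ≤ 1 ∧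
      Function.Injective (line (F := F) u v a b) ∧ line (F := F) u v a b P = A ^ 2 * R ∧
        R.natDegree ≤ 2

theorem trdeg_ratFunc (K : Type u) [Field K] : Algebra.trdeg K (RatFunc K) = 1 := by
  have : Algebra.IsAlgebraic (Polynomial K) (RatFunc K) :=
    (IsFractionRing.comap_isAlgebraic_iff (A := Polynomial K) (K := RatFunc K)
      (C := RatFunc K)).2 inferInstance
  have h := (IsTranscendenceBasis.polynomial Unit K).algebraMap_comp (A := RatFunc K)
  have h2 := h.lift_cardinalMk_eq_trdeg
  simpa using h2.symm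

theorem exists_ratFunc' {F : Type u} [Field F] (h2 : (2 : F) ≠ 0) {K : Type v} [Field K]
    [Algebra F K] {x y r : K} (hxy : AlgebraicIndependent F ![x, y])
    (hK : IntermediateField.adjoin F {x, y, r} = ⊤) {P : MvPolynomial (Fin 2) F}
    (hr : r ^ 2 = aeval ![x, y] P) (hP : GoodLine P) :
    ∃ (K₁ : Type u) (_ : Field K₁) (_ : Algebra F K₁) (φ : K →ₐ[F] RatFunc K₁),
      Algebra.trdeg F K₁ ≤ 1 ∧ φ.toRingHom.IsIntegral := by
  obtain ⟨K₁, _, _, _, u, v, a, b, A, R, htr, hinj, hline, hdeg⟩ := hP
  have h2' : (2 : K₁) ≠ 0 := by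
    rw [← map_ofNat (algebraMap F K₁) 2, Ne, map_eq_zero]
    exact h2
  obtain ⟨l, ρ, hl, hρ⟩ := exists_param h2' R hdeg
  refine ⟨K₁, inferInstance, inferInstance, ?_⟩
  -- the point of the plane
  let ψ : MvPolynomial (Fin 2) F →ₐ[F] RatFunc K₁ :=
    ((Polynomial.aeval l).restrictScalars F).comp (line (F := F) u v a b)
  have hψ : Function.Injective ψ := by
    have h3 : Function.Injective (Polynomial.aeval (R := K₁) l) := by
      rw [← transcendental_iff_injective]
      exact hl
    exact h3.comp hinj
  set x' : Fin 2 → RatFunc K₁ := fun i => ψ (X i) with hx'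
  have hψ' : ψ = aeval x' := by
    apply MvPolynomial.algHom_ext
    intro i
    rw [aeval_X]
  have hind : AlgebraicIndependent F x' := by
    rw [algebraicIndependent_iff_injective_aeval, ← hψ']
    exact hψ
  have htr2 : Algebra.trdeg F (RatFunc K₁) ≤ 2 := by
    rw [← trdeg_add_eq F K₁ (A := RatFunc K₁), trdeg_ratFunc]
    calc Algebra.trdeg F K₁ + 1 ≤ 1 + 1 := by gcongr
      _ = 2 := one_add_one_eq_two
  have hbasis : IsTranscendenceBasis F x' :=
    hind.isTranscendenceBasis_of_lift_trdeg_le_of_finite (by simpa using htr2)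
  have halg := hbasis.isAlgebraic_field
  -- the embedding of the field of rational functions in two variables
  set E := IntermediateField.adjoin F (Set.range ![x, y]) with hE
  let e := hxy.aevalEquivField
  let e' := hind.aevalEquivField
  let f : E →ₐ[F] RatFunc K₁ :=
    (IntermediateField.val _).comp ((e'.toAlgHom).comp e.symm.toAlgHom)
  have hf : ∀ (G : MvPolynomial (Fin 2) F) (z : E), (z : K) = aeval ![x, y] G →
      f z = aeval x' G := by
    intro G z hz
    have h3 : z = e (algebraMap _ _ G) := by
      apply Subtype.ext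
      rw [hz, AlgebraicIndependent.aevalEquivField_algebraMap_apply_coe]
    rw [h3]
    change ((e' (e.symm (e (algebraMap _ _ G))) : IntermediateField.adjoin F (Set.range x')) :
      RatFunc K₁) = _
    rw [AlgEquiv.symm_apply_apply, AlgebraicIndependent.aevalEquivField_algebraMap_apply_coe]
  have hPmem : aeval ![x, y] P ∈ E := by
    have h3 := (e (algebraMap _ _ P)).2
    rwa [AlgebraicIndependent.aevalEquivField_algebraMap_apply_coe] at h3
  have hfint : f.toRingHom.IsIntegral := by
    have h3 : (algebraMap (IntermediateField.adjoin F (Set.range x')) (RatFunc K₁)).IsIntegral :=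
      algebraMap_isIntegral_iff.2 inferInstance
    have h4 : (e.symm.trans e').toAlgHom.toRingHom.IsIntegral :=
      RingHom.isIntegral_of_surjective _ (e.symm.trans e').surjective
    exact h4.trans _ _ h3
  -- the square root
  set ρ' : RatFunc K₁ := Polynomial.aeval l A * ρ with hρ'
  have hρ2 : ρ' ^ 2 = aeval x' P := by
    rw [← hψ']
    change ρ' ^ 2 = Polynomial.aeval l (line (F := F) u v a b P)
    rw [hline, map_mul, map_pow, hρ', mul_pow, hρ]
  set p : Polynomial E := Polynomial.X ^ 2 - Polynomial.C ⟨_, hPmem⟩ with hp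
  have hpm : p.Monic := Polynomial.monic_X_pow_sub_C _ two_ne_zero
  have hpr : Polynomial.aeval r p = 0 := by
    rw [hp, map_sub, map_pow, Polynomial.aeval_X, Polynomial.aeval_C, hr]
    exact sub_self _
  have hpf : p.map f.toRingHom = (Polynomial.X - Polynomial.C ρ') *
      (Polynomial.X - Polynomial.C (-ρ')) := by
    have h3 : f.toRingHom ⟨_, hPmem⟩ = ρ' ^ 2 := by
      rw [hρ2]
      exact hf P _ rfl
    rw [hp, Polynomial.map_sub, Polynomial.map_pow, Polynomial.map_X, Polynomial.map_C, h3]
    simp only [map_neg, map_pow]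
    ring
  have hsplit : ((minpoly E r).map f.toRingHom).Splits := by
    have h3 : (p.map f.toRingHom).Splits := by
      rw [hpf]
      exact (Polynomial.Splits.X_sub_C _).mul (Polynomial.Splits.X_sub_C _)
    refine h3.of_dvd (hpm.map _).ne_zero ?_
    exact Polynomial.map_dvd _ (minpoly.dvd E r hpr)
  have hint : IsIntegral E r := ⟨p, hpm, by rw [← Polynomial.aeval_def]; exact hpr⟩
  have htop : IntermediateField.adjoin E {r} = ⊤ := by
    rw [eq_top_iff]
    intro z _
    have hz : z ∈ IntermediateField.adjoin F {x, y, r} := by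
      rw [hK]
      exact IntermediateField.mem_top
    have h3 : IntermediateField.adjoin F {x, y, r} ≤
        (IntermediateField.adjoin E {r}).restrictScalars F := by
      rw [IntermediateField.adjoin_le_iff]
      intro w hw
      have hxE : ∀ i, ![x, y] i ∈ E := fun i =>
        IntermediateField.subset_adjoin _ _ ⟨i, rfl⟩
      rcases hw with rfl | rfl | hw
      · exact (IntermediateField.adjoin E {r}).algebraMap_mem ⟨_, hxE 0⟩
      · exact (IntermediateField.adjoin E {r}).algebraMap_mem ⟨_, hxE 1⟩
      · exact IntermediateField.subset_adjoin E {r} hw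
    exact h3 hz
  obtain ⟨φ, hφ⟩ := IntermediateField.exists_algHom_of_adjoin_splits' (S := {r}) f
    (fun s hs => by
      rw [Set.mem_singleton_iff] at hs
      subst hs
      exact ⟨hint, hsplit⟩) htop
  refine ⟨φ, htr, ?_⟩
  have h3 : f.toRingHom = φ.toRingHom.comp (algebraMap E K) := by
    ext z
    exact (DFunLike.congr_fun hφ z).symm
  rw [h3] at hfint
  exact RingHom.IsIntegral.tower_top _ _ hfint

theorem exists_ratFunc {F : Type u} [Field F] (h2 : (2 : F) ≠ 0) {K : Type v} [Field K]
    [Algebra F K] {x y r : K} (hxy : AlgebraicIndependent F ![x, y])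
    (hK : IntermediateField.adjoin F {x, y, r} = ⊤) {P : MvPolynomial (Fin 2) F}
    (hr : r ^ 2 = aeval ![x, y] P) (hP : GoodLine P) :
    ∃ (K₁ : Type u) (_ : Field K₁) (_ : Algebra F K₁) (φ : K →ₐ[F] RatFunc K₁),
      φ.toRingHom.IsIntegral := by
  obtain ⟨K₁, i1, i2, φ, -, h⟩ := exists_ratFunc' h2 hxy hK hr hP
  exact ⟨K₁, i1, i2, φ, h⟩

end Pool.Agent.Helper73.QU
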