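import Pool.Agent.Helper73.QU.Embed

/-!
# Every polynomial of degree at most four in two variables has good lines
-/

open MvPolynomial

namespace Pool.Agent.Helper73.QU

universe u v

section

variable {F : Type*} [Field F] {K : Type*} [Field K] [Algebra F K]

theorem coeff_zero_line (u v a b : K) (G : MvPolynomial (Fin 2) F) :
    (line u v a b G).coeff 0 = aeval ![u, v] G := by
  rw [Polynomial.coeff_zero_eq_eval_zero, eval_line]
  simp

theorem coeff_one_line (u v a b : K) (G : MvPolynomial (Fin 2) F) :
    (line u v a b G).coeff 1 = aeval ![u, v] (pderiv 0 G) * a + aeval ![u, v] (pderiv 1 G) * b := by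
  induction G using MvPolynomial.induction_on with
  | C c =>
    rw [line_C, Polynomial.coeff_C_succ]
    simp
  | add p q hp hq =>
    rw [map_add, Polynomial.coeff_add, hp, hq, map_add, map_add, map_add, map_add]
    ring
  | mul_X p i hp =>
    rw [map_mul, Polynomial.mul_coeff_one, hp, coeff_zero_line, coeff_zero_line]
    have h1 : (line (F := F) u v a b (X i)).coeff 1 = ![a, b] i := by
      fin_cases i <;> simp [line]
    rw [h1]
    fin_cases i
    · simp
      ring
    · simp
      ring

theorem X_sq_dvd_line {u v a b : K} {G : MvPolynomial (Fin 2) F} (h0 : aeval ![u, v] G = 0)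
    (h1 : aeval ![u, v] (pderiv 0 G) * a + aeval ![u, v] (pderiv 1 G) * b = 0) :
    (Polynomial.X : Polynomial K) ^ 2 ∣ line u v a b G := by
  rw [Polynomial.X_pow_dvd_iff]
  intro d hd
  interval_cases d
  · rw [coeff_zero_line, h0]
  · rw [coeff_one_line, h1]

end

theorem goodLine_of_dvd {F : Type u} [Field F] {P : MvPolynomial (Fin 2) F}
    (hP : P.totalDegree ≤ 4) {K₁ : Type u} [Field K₁] [IsAlgClosed K₁] [Algebra F K₁]
    {u v a b : K₁} (htr : Algebra.trdeg F K₁ ≤ 1) (hinj : Function.Injective (line (F := F) u v a b))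
    (hd : (Polynomial.X : Polynomial K₁) ^ 2 ∣ line (F := F) u v a b P) : GoodLine P := by
  obtain ⟨R, hR⟩ := hd
  refine ⟨K₁, inferInstance, inferInstance, inferInstance, u, v, a, b, Polynomial.X, R, htr, hinj,
    hR, ?_⟩
  by_cases h0 : R = 0
  · rw [h0, Polynomial.natDegree_zero]
    omega
  have h1 : (line (F := F) u v a b P).natDegree = 2 + R.natDegree := by
    rw [hR, Polynomial.natDegree_mul (pow_ne_zero _ Polynomial.X_ne_zero) h0,
      Polynomial.natDegree_X_pow]
  have h2 := natDegree_line u v a b P
  omega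

section

variable {F : Type u} [Field F] [IsAlgClosed F]

/-- an algebraically closed field of transcendence degree one -/
theorem exists_field (F : Type u) [Field F] : ∃ (K₁ : Type u) (_ : Field K₁) (_ : IsAlgClosed K₁)
    (_ : Algebra F K₁) (τ : K₁), Algebra.trdeg F K₁ ≤ 1 ∧ Transcendental F τ := by
  refine ⟨AlgebraicClosure (RatFunc F), inferInstance, inferInstance, inferInstance,
    algebraMap (RatFunc F) _ RatFunc.X, ?_, ?_⟩
  · rw [← trdeg_add_eq F (RatFunc F) (A := AlgebraicClosure (RatFunc F)), trdeg_ratFunc,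
      trdeg_eq_zero, add_zero]
  · rw [transcendental_algebraMap_iff (algebraMap (RatFunc F) _).injective]
    exact RatFunc.transcendental_X

/-- lines in a fixed direction -/
theorem goodLine_direction {P : MvPolynomial (Fin 2) F} {α β : F} (h : α ≠ 0 ∨ β ≠ 0)
    (hP : ∀ (K : Type u) [Field K] [Algebra F K] (u v : K),
      (line (F := F) u v (algebraMap F K α) (algebraMap F K β) P).natDegree ≤ 2) : GoodLine P := by
  obtain ⟨K₁, _, _, _, τ, htr, hτ⟩ := exists_field F
  have key : ∀ s : F, s ≠ 0 → Transcendental F (algebraMap F K₁ s * τ) := by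
    intro s hs h
    apply hτ
    have h1 : τ = algebraMap F K₁ s⁻¹ * (algebraMap F K₁ s * τ) := by
      rw [← mul_assoc, ← map_mul, inv_mul_cancel₀ hs, map_one, one_mul]
    rw [h1]
    exact (isAlgebraic_algebraMap _).mul h
  by_cases hβ : β = 0
  · have hα : α ≠ 0 := h.resolve_right (not_not.2 hβ)
    refine ⟨K₁, inferInstance, inferInstance, inferInstance, 0, τ, algebraMap F K₁ α,
      algebraMap F K₁ β, 1, _, htr, line_injective (Or.inl (by simpa using hα)) ?_, ?_, hP K₁ 0 τ⟩
    · intro α' β' h' hd
      have hβ' : β' = 0 := by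
        rw [hβ, map_zero, mul_zero] at hd
        have := (mul_eq_zero.1 hd.symm).resolve_right (by simpa using hα)
        simpa using this
      have hα' : α' ≠ 0 := h'.resolve_right (not_not.2 hβ')
      rw [mul_zero, zero_sub, ← neg_mul, ← map_neg]
      exact key _ (neg_ne_zero.2 hα')
    · rw [one_pow, one_mul]
  · refine ⟨K₁, inferInstance, inferInstance, inferInstance, τ, 0, algebraMap F K₁ α,
      algebraMap F K₁ β, 1, _, htr, line_injective (Or.inr (by simpa using hβ)) ?_, ?_, hP K₁ τ 0⟩
    · intro α' β' h' hd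
      have hβ' : β' ≠ 0 := by
        intro h0
        rw [h0, map_zero, zero_mul] at hd
        have := (mul_eq_zero.1 hd).resolve_right (by simpa using hβ)
        have h1 : α' = 0 := by simpa using this
        exact h'.elim (fun h => h h1) fun h => h h0
      rw [mul_zero, sub_zero]
      exact key _ hβ'
    · rw [one_pow, one_mul]

/-- a singular point -/
theorem goodLine_point {P : MvPolynomial (Fin 2) F} (hP : P.totalDegree ≤ 4) (p : Fin 2 → F)
    (h0 : aeval p P = 0) (h1 : ∀ i, aeval p (pderiv i P) = 0) : GoodLine P := by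
  obtain ⟨K₁, _, _, _, τ, htr, hτ⟩ := exists_field F
  have e : ∀ G : MvPolynomial (Fin 2) F, aeval ![algebraMap F K₁ (p 0), algebraMap F K₁ (p 1)] G =
      algebraMap F K₁ (aeval p G) := by
    intro G
    rw [← MvPolynomial.aeval_algebraMap_apply]
    congr 2
    ext i
    fin_cases i <;> rfl
  refine goodLine_of_dvd hP (u := algebraMap F K₁ (p 0)) (v := algebraMap F K₁ (p 1)) (a := 1)
    (b := τ) htr (line_injective (Or.inl one_ne_zero) ?_) ?_
  · intro α β h hd
    exfalso
    rw [mul_one] at hd
    by_cases hα : α = 0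
    · rw [hα, map_zero, zero_mul] at hd
      have hβ : β = 0 := by simpa using hd.symm
      exact h.elim (fun h => h hα) fun h => h hβ
    · apply hτ
      have h2 : τ = algebraMap F K₁ (β / α) := by
        rw [map_div₀, eq_div_iff (by simpa using hα), mul_comm, hd]
      rw [h2]
      exact isAlgebraic_algebraMap _
  · apply X_sq_dvd_line
    · rw [e, h0, map_zero]
    · rw [e, e, h1, h1, map_zero, zero_mul, zero_mul, add_zero]

/-- an irreducible factor of degree at least two -/
theorem goodLine_factor {P Q : MvPolynomial (Fin 2) F} (hP : P.totalDegree ≤ 4)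
    (hQ : Irreducible Q) (hQP : Q ∣ P) (hQ2 : 2 ≤ Q.totalDegree) : GoodLine P := by
  have hprime : (Ideal.span {Q}).IsPrime :=
    (Ideal.span_singleton_prime hQ.ne_zero).2 (UniqueFactorizationMonoid.irreducible_iff_prime.1 hQ)
  let B := MvPolynomial (Fin 2) F ⧸ Ideal.span {Q}
  have hB : IsDomain B := Ideal.Quotient.isDomain _
  let K₁ := AlgebraicClosure (FractionRing B)
  let π : MvPolynomial (Fin 2) F →ₐ[F] K₁ :=
    (IsScalarTower.toAlgHom F B K₁).comp (Ideal.Quotient.mkₐ F (Ideal.span {Q}))
  have hinjB : Function.Injective (algebraMap B K₁) := by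
    rw [IsScalarTower.algebraMap_eq B (FractionRing B) K₁]
    exact (algebraMap (FractionRing B) K₁).injective.comp (IsFractionRing.injective B _)
  have hπ0 : ∀ G : MvPolynomial (Fin 2) F, π G = 0 → Q ∣ G := by
    intro G hG
    have h1 : algebraMap B K₁ (Ideal.Quotient.mk (Ideal.span {Q}) G) = 0 := hG
    have h2 : Ideal.Quotient.mk (Ideal.span {Q}) G = 0 := by
      apply hinjB
      rw [h1, map_zero]
    rwa [Ideal.Quotient.eq_zero_iff_mem, Ideal.mem_span_singleton] at h2
  have hπ1 : ∀ G : MvPolynomial (Fin 2) F, Q ∣ G → π G = 0 := by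
    intro G hG
    change algebraMap B K₁ (Ideal.Quotient.mk (Ideal.span {Q}) G) = 0
    rw [Ideal.Quotient.eq_zero_iff_mem.2 (Ideal.mem_span_singleton.2 hG), map_zero]
  set u : K₁ := π (X 0) with hu
  set v : K₁ := π (X 1) with hv
  have hπ : π = aeval ![u, v] := by
    apply MvPolynomial.algHom_ext
    intro i
    fin_cases i <;> simp [hu, hv]
  -- the transcendence degree
  have htr : Algebra.trdeg F K₁ ≤ 1 := by
    have : Algebra.IsAlgebraic B K₁ :=
      (IsFractionRing.comap_isAlgebraic_iff (A := B) (K := FractionRing B) (C := K₁)).2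
        inferInstance
    have : FaithfulSMul B K₁ := (faithfulSMul_iff_algebraMap_injective B K₁).2 hinjB
    have e1 : Algebra.trdeg F K₁ = Algebra.trdeg F B := by
      rw [← trdeg_add_eq F B (A := K₁), trdeg_eq_zero (R := B), add_zero]
    rw [e1]
    by_contra hcon
    rw [not_le] at hcon
    have h2 : (2 : Cardinal) ≤ Algebra.trdeg F B := Cardinal.two_le_iff_one_lt.2 hcon
    let x : Fin 2 → B := fun i => Ideal.Quotient.mk (Ideal.span {Q}) (X i)
    have hx : Ideal.Quotient.mkₐ F (Ideal.span {Q}) = aeval x := by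
      apply MvPolynomial.algHom_ext
      intro i
      rw [aeval_X]
      rfl
    have htop : Algebra.adjoin F (Set.range x) = ⊤ := by
      rw [Algebra.adjoin_range_eq_range_aeval, ← hx, AlgHom.range_eq_top]
      exact Ideal.Quotient.mkₐ_surjective F _
    have : Algebra.IsAlgebraic (Algebra.adjoin F (Set.range x)) B := by
      refine ⟨fun z => ?_⟩
      have hz : z ∈ Algebra.adjoin F (Set.range x) := by
        rw [htop]
        exact Algebra.mem_top
      exact isAlgebraic_algebraMap (⟨z, hz⟩ : Algebra.adjoin F (Set.range x))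
    have hbasis := Algebra.IsAlgebraic.isTranscendenceBasis_of_lift_le_trdeg_of_finite F x
      (by simpa using h2)
    have h3 := algebraicIndependent_iff_injective_aeval.1 hbasis.1
    rw [← hx] at h3
    have h4 : Ideal.Quotient.mkₐ F (Ideal.span {Q}) Q = 0 :=
      Ideal.Quotient.eq_zero_iff_mem.2 (Ideal.mem_span_singleton_self Q)
    exact hQ.ne_zero (h3 (by rw [h4, map_zero]))
  -- the direction
  obtain ⟨a, b, hab, h1⟩ : ∃ a b : K₁, (a ≠ 0 ∨ b ≠ 0) ∧
      aeval ![u, v] (pderiv 0 P) * a + aeval ![u, v] (pderiv 1 P) * b = 0 := by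
    by_cases h : aeval ![u, v] (pderiv 1 P) = 0
    · exact ⟨0, 1, Or.inr one_ne_zero, by rw [h, mul_zero, zero_mul, add_zero]⟩
    · exact ⟨aeval ![u, v] (pderiv 1 P), -aeval ![u, v] (pderiv 0 P), Or.inl h, by ring⟩
  refine goodLine_of_dvd hP (u := u) (v := v) (a := a) (b := b) htr (line_injective hab ?_) ?_
  · intro α β h hd hcon
    obtain ⟨c, hc⟩ : ∃ c : F, algebraMap F K₁ c = algebraMap F K₁ β * u - algebraMap F K₁ α * v := by
      have hmem : algebraMap F K₁ β * u - algebraMap F K₁ α * v ∈ IntermediateField.adjoin F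
          {algebraMap F K₁ β * u - algebraMap F K₁ α * v} :=
        IntermediateField.mem_adjoin_simple_self F _
      have := IntermediateField.isAlgebraic_adjoin_simple hcon.isIntegral
      rw [IntermediateField.eq_bot_of_isAlgClosed_of_isAlgebraic (IntermediateField.adjoin F
        {algebraMap F K₁ β * u - algebraMap F K₁ α * v}), IntermediateField.mem_bot] at hmem
      exact hmem
    set G : MvPolynomial (Fin 2) F := C β * X 0 - C α * X 1 - C c with hG
    have h2 : Q ∣ G := by
      apply hπ0
      rw [hG, map_sub, map_sub, map_mul, map_mul, ← hu, ← hv]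
      rw [hπ, algHom_C, algHom_C, algHom_C, hc, sub_self]
    have hG0 : G ≠ 0 := by
      intro h0
      rcases h with h | h
      · apply h
        have h3 := congrArg (coeff (Finsupp.single 1 1)) h0
        rw [hG] at h3
        have h4 : (0 : Fin 2 →₀ ℕ) ≠ Finsupp.single 1 1 := by
          intro h
          have := DFunLike.congr_fun h 1
          simp at this
        simpa [coeff_C_mul, coeff_X, coeff_C, Finsupp.single_eq_single_iff, h4] using h3
      · apply h
        have h3 := congrArg (coeff (Finsupp.single 0 1)) h0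
        rw [hG] at h3
        have h4 : (0 : Fin 2 →₀ ℕ) ≠ Finsupp.single 0 1 := by
          intro h
          have := DFunLike.congr_fun h 0
          simp at this
        simpa [coeff_C_mul, coeff_X, coeff_C, Finsupp.single_eq_single_iff, h4] using h3
    obtain ⟨H, hH⟩ := h2
    have hH0 : H ≠ 0 := by
      rintro rfl
      rw [mul_zero] at hH
      exact hG0 hH
    have h4 : G.totalDegree = Q.totalDegree + H.totalDegree := by
      rw [hH, totalDegree_mul_of_isDomain hQ.ne_zero hH0]
    have h5 : G.totalDegree ≤ 1 := by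
      rw [hG]
      refine (totalDegree_sub _ _).trans (max_le ((totalDegree_sub _ _).trans (max_le ?_ ?_)) ?_)
      · refine (totalDegree_mul _ _).trans ?_
        rw [totalDegree_C, totalDegree_X]
      · refine (totalDegree_mul _ _).trans ?_
        rw [totalDegree_C, totalDegree_X]
      · rw [totalDegree_C]
        omega
    omega
  · apply X_sq_dvd_line
    · rw [← hπ]
      exact hπ1 P hQP
    · exact h1

omit [IsAlgClosed F] in
theorem exists_linear {q : MvPolynomial (Fin 2) F} (hq : q.totalDegree ≤ 1) :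
    ∃ α β γ : F, q = C α * X 0 + C β * X 1 + C γ := by
  have h1 : homogeneousComponent 1 q ∈ Submodule.span F (Set.range X) := by
    rw [← homogeneousSubmodule_one_eq_span_X]
    exact homogeneousComponent_mem 1 q
  rw [Submodule.mem_span_range_iff_exists_fun] at h1
  obtain ⟨c, hc⟩ := h1
  refine ⟨c 0, c 1, coeff 0 q, ?_⟩
  have h2 : homogeneousComponent 0 q + homogeneousComponent 1 q = q := by
    have h3 := sum_homogeneousComponent q
    rcases (by omega : q.totalDegree = 0 ∨ q.totalDegree = 1) with h | h
    · rw [h, zero_add, Finset.sum_range_one] at h3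
      rw [homogeneousComponent_eq_zero 1 q (by omega), add_zero, h3]
    · rw [h, Finset.sum_range_succ, Finset.sum_range_one] at h3
      exact h3
  have h4 : homogeneousComponent 1 q = C (c 0) * X 0 + C (c 1) * X 1 := by
    rw [← hc, Fin.sum_univ_two, smul_eq_C_mul, smul_eq_C_mul]
  calc q = homogeneousComponent 0 q + homogeneousComponent 1 q := h2.symm
    _ = C (coeff 0 q) + (C (c 0) * X 0 + C (c 1) * X 1) := by
      rw [homogeneousComponent_zero, h4]
    _ = C (c 0) * X 0 + C (c 1) * X 1 + C (coeff 0 q) := add_comm _ _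

omit [IsAlgClosed F] in
theorem linear_ext {α β γ α' β' γ' : F} (h : (C α' * X 0 + C β' * X 1 + C γ' :
    MvPolynomial (Fin 2) F) = C α * X 0 + C β * X 1 + C γ) : α' = α ∧ β' = β := by
  have h0 := congrArg (aeval (R := F) (![0, 0] : Fin 2 → F)) h
  have h1 := congrArg (aeval (R := F) (![1, 0] : Fin 2 → F)) h
  have h2 := congrArg (aeval (R := F) (![0, 1] : Fin 2 → F)) h
  simp only [map_add, map_mul, algHom_C, aeval_X, Matrix.cons_val_zero, Matrix.cons_val_one,
    Algebra.algebraMap_self, RingHom.id_apply, mul_zero, mul_one, zero_add, add_zero] at h0 h1 h2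
  constructor
  · linear_combination h1 - h0
  · linear_combination h2 - h0

omit [IsAlgClosed F] in
theorem exists_zero {α β α' β' : F} (h : α * β' - α' * β ≠ 0) (γ γ' : F) : ∃ p : Fin 2 → F,
    aeval p (C α * X 0 + C β * X 1 + C γ : MvPolynomial (Fin 2) F) = 0 ∧
      aeval p (C α' * X 0 + C β' * X 1 + C γ' : MvPolynomial (Fin 2) F) = 0 := by
  refine ⟨![(β * γ' - β' * γ) * (α * β' - α' * β)⁻¹, (α' * γ - α * γ') *
      (α * β' - α' * β)⁻¹], ?_, ?_⟩
  · simp only [map_add, map_mul, algHom_C, aeval_X, Matrix.cons_val_zero, Matrix.cons_val_one,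
      Algebra.algebraMap_self, RingHom.id_apply]
    linear_combination (-γ) * mul_inv_cancel₀ h
  · simp only [map_add, map_mul, algHom_C, aeval_X, Matrix.cons_val_zero, Matrix.cons_val_one,
      Algebra.algebraMap_self, RingHom.id_apply]
    linear_combination (-γ') * mul_inv_cancel₀ h

/-- every polynomial of degree at most four has good lines -/
theorem goodLine {P : MvPolynomial (Fin 2) F} (hP : P.totalDegree ≤ 4) : GoodLine P := by
  classical
  by_cases hP0 : P = 0
  · refine goodLine_direction (α := 1) (β := 0) (Or.inl one_ne_zero) fun K _ _ u v => ?_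
    rw [hP0, map_zero, Polynomial.natDegree_zero]
    omega
  by_cases h : ∃ Q, Irreducible Q ∧ Q ∣ P ∧ 2 ≤ Q.totalDegree
  · obtain ⟨Q, hQ, hQP, hQ2⟩ := h
    exact goodLine_factor hP hQ hQP hQ2
  push Not at h
  obtain ⟨f, hf, hfP⟩ := WfDvdMonoid.exists_factors P hP0
  obtain ⟨c, hc⟩ := hfP
  have hdvd : ∀ q ∈ f, q ∣ P := fun q hq =>
    (Multiset.dvd_prod hq).trans ⟨_, hc.symm⟩
  have hdeg : ∀ q ∈ f, q.totalDegree ≤ 1 := fun q hq =>
    Nat.lt_succ_iff.1 (h q (hf q hq) (hdvd q hq))
  have hc0 : (c : MvPolynomial (Fin 2) F).totalDegree = 0 :=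
    (MvPolynomial.isUnit_iff_totalDegree_of_isReduced.1 c.isUnit).2
  rcases Multiset.empty_or_exists_mem f with hf0 | ⟨q, hq⟩
  · refine goodLine_direction (α := 1) (β := 0) (Or.inl one_ne_zero) fun K _ _ u v => ?_
    refine (natDegree_line _ _ _ _ P).trans ?_
    rw [← hc, hf0, Multiset.prod_zero, one_mul, hc0]
    omega
  obtain ⟨f', rfl⟩ := Multiset.exists_cons_of_mem hq
  obtain ⟨α, β, γ, hqe⟩ := exists_linear (hdeg q hq)
  have hαβ : α ≠ 0 ∨ β ≠ 0 := by
    by_contra hcon
    push Not at hcon
    have hirr := hf q hq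
    rw [hqe, hcon.1, hcon.2, C_0, zero_mul, zero_mul, zero_add, zero_add] at hirr
    by_cases hγ : γ = 0
    · rw [hγ, C_0] at hirr
      exact hirr.ne_zero rfl
    · exact hirr.not_isUnit ((isUnit_iff_ne_zero.2 hγ).map C)
  have hPe : P = q * (f'.prod * c) := by
    rw [← hc, Multiset.prod_cons, mul_assoc]
  by_cases hp : ∃ p : Fin 2 → F, aeval p q = 0 ∧ aeval p (f'.prod * (c : MvPolynomial (Fin 2) F)) = 0
  · obtain ⟨p, hp1, hp2⟩ := hp
    refine goodLine_point hP p ?_ fun i => ?_
    · rw [hPe, map_mul, hp1, zero_mul]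
    · rw [hPe, pderiv_mul, map_add]
      have e1 : aeval p (pderiv i q * (f'.prod * (c : MvPolynomial (Fin 2) F))) = 0 := by
        rw [map_mul, hp2, mul_zero]
      have e2 : aeval p (q * pderiv i (f'.prod * (c : MvPolynomial (Fin 2) F))) = 0 := by
        rw [map_mul, hp1, zero_mul]
      rw [e1, e2, add_zero]
  push Not at hp
  have hpar : ∀ q' ∈ q ::ₘ f', ∀ α' β' γ' : F, q' = C α' * X 0 + C β' * X 1 + C γ' →
      α' * β = β' * α := by
    intro q' hq' α' β' γ' he
    rcases Multiset.mem_cons.1 hq' with hq' | hq'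
    · have h5 := he.symm.trans (hq'.trans hqe)
      obtain ⟨e1, e2⟩ := linear_ext h5
      rw [e1, e2]
      ring
    by_contra hdet
    have hdet' : α * β' - α' * β ≠ 0 := by
      intro h0
      apply hdet
      linear_combination - h0
    obtain ⟨p, hp1, hp2⟩ := exists_zero hdet' γ γ'
    refine hp p ?_ ?_
    · rw [hqe]
      exact hp1
    · obtain ⟨g, hg⟩ := Multiset.dvd_prod hq'
      rw [hg, map_mul, map_mul, he, hp2, zero_mul, zero_mul]
  refine goodLine_direction (α := β) (β := -α) (hαβ.symm.imp id neg_ne_zero.2) fun K _ _ u v => ?_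
  have key : ∀ q' ∈ q ::ₘ f', (line (F := F) u v (algebraMap F K β) (algebraMap F K (-α)) q').natDegree
      ≤ 0 := by
    intro q' hq'
    obtain ⟨α', β', γ', he⟩ := exists_linear (hdeg q' hq')
    have h1 := hpar q' hq' α' β' γ' he
    have h2 : line (F := F) u v (algebraMap F K β) (algebraMap F K (-α)) q' =
        Polynomial.C (algebraMap F K α' * u + algebraMap F K β' * v + algebraMap F K γ') := by
      have h3 : algebraMap F K α' * algebraMap F K β = algebraMap F K β' * algebraMap F K α := by
        rw [← map_mul, h1, map_mul]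
      have h4 := congrArg Polynomial.C h3
      rw [he, line]
      simp only [map_add, map_mul, aeval_X, algHom_C, map_neg, Polynomial.algebraMap_apply,
        Matrix.cons_val_zero, Matrix.cons_val_one] at h4 ⊢
      linear_combination (Polynomial.X : Polynomial K) * h4
    rw [h2, Polynomial.natDegree_C]
  have hprod : ∀ g : Multiset (MvPolynomial (Fin 2) F),
      (∀ q' ∈ g, (line (F := F) u v (algebraMap F K β) (algebraMap F K (-α)) q').natDegree ≤ 0) →
      (line (F := F) u v (algebraMap F K β) (algebraMap F K (-α)) g.prod).natDegree ≤ 0 := by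
    intro g
    induction g using Multiset.induction_on with
    | empty =>
      intro _
      rw [Multiset.prod_zero, map_one, Polynomial.natDegree_one]
    | cons b g ih =>
      intro hb
      rw [Multiset.prod_cons, map_mul]
      refine Polynomial.natDegree_mul_le.trans ?_
      have h1 := hb b (Multiset.mem_cons_self b g)
      have h2 := ih fun q' hq' => hb q' (Multiset.mem_cons_of_mem hq')
      omega
  have h1 := hprod (q ::ₘ f') key
  have h2 := natDegree_line u v (algebraMap F K β) (algebraMap F K (-α))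
    (c : MvPolynomial (Fin 2) F)
  rw [hc0] at h2
  rw [← hc, map_mul]
  refine Polynomial.natDegree_mul_le.trans ?_
  omega

end

end Pool.Agent.Helper73.QU
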