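import Mathlib

/-!
# Lines which sweep out the plane
-/

open MvPolynomial

namespace Pool.Agent.Helper73.QU

section

variable {F : Type*} [Field F] {K : Type*} [Field K] [Algebra F K]

/-- the restriction of a polynomial to the line through `(u, v)` in the direction `(a, b)` -/
noncomputable def line (u v a b : K) : MvPolynomial (Fin 2) F →ₐ[F] Polynomial K :=
  aeval ![Polynomial.C u + Polynomial.C a * Polynomial.X,
    Polynomial.C v + Polynomial.C b * Polynomial.X]

theorem eval_line (u v a b c : K) (G : MvPolynomial (Fin 2) F) :
    (line u v a b G).eval c = aeval ![u + a * c, v + b * c] G := by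
  have h : ((Polynomial.aeval c).restrictScalars F).comp (line (F := F) u v a b) =
      aeval ![u + a * c, v + b * c] := by
    apply MvPolynomial.algHom_ext
    intro i
    fin_cases i <;> simp [line]
  have h2 := DFunLike.congr_fun h G
  rw [← h2, AlgHom.comp_apply, AlgHom.restrictScalars_apply, Polynomial.coe_aeval_eq_eval]

theorem line_C (u v a b : K) (c : F) : line u v a b (C c) = Polynomial.C (algebraMap F K c) := by
  rw [line, MvPolynomial.algHom_C]
  rfl

theorem natDegree_lin (u a : K) : (Polynomial.C u + Polynomial.C a * Polynomial.X).natDegree ≤ 1 := by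
  refine (Polynomial.natDegree_add_le _ _).trans (max_le (by simp) ?_)
  exact (Polynomial.natDegree_C_mul_le _ _).trans (by simp)

/-- the restriction of a homogeneous polynomial of degree `n` has degree at most `n` and the
coefficient `G (a, b)` in degree `n` -/
theorem line_homogeneous (u v a b : K) {G : MvPolynomial (Fin 2) F} {n : ℕ}
    (hG : G.IsHomogeneous n) : (line u v a b G).natDegree ≤ n ∧
      (line u v a b G).coeff n = aeval ![a, b] G := by
  have key : ∀ d ∈ G.support, (line u v a b (monomial d (G.coeff d))).natDegree ≤ n ∧
      (line u v a b (monomial d (G.coeff d))).coeff n = aeval ![a, b] (monomial d (G.coeff d)) := by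
    intro d hd
    have hdeg : d 0 + d 1 = n := by
      have h := hG (mem_support_iff.1 hd)
      rw [Finsupp.weight_apply, Finsupp.sum_fintype _ _ (by simp)] at h
      simpa [Fin.sum_univ_two] using h
    have e0 : ((Polynomial.C u + Polynomial.C a * Polynomial.X) ^ d 0).natDegree ≤ d 0 :=
      (Polynomial.natDegree_pow_le_of_le _ (natDegree_lin u a)).trans (by rw [mul_one])
    have e1 : ((Polynomial.C v + Polynomial.C b * Polynomial.X) ^ d 1).natDegree ≤ d 1 :=
      (Polynomial.natDegree_pow_le_of_le _ (natDegree_lin v b)).trans (by rw [mul_one])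
    have e2 : line u v a b (monomial d (G.coeff d)) = Polynomial.C (algebraMap F K (G.coeff d)) *
        ((Polynomial.C u + Polynomial.C a * Polynomial.X) ^ d 0 *
          (Polynomial.C v + Polynomial.C b * Polynomial.X) ^ d 1) := by
      rw [line, aeval_monomial, Finsupp.prod_fintype _ _ (by simp), Fin.prod_univ_two]
      rfl
    have c0 := Polynomial.coeff_pow_of_natDegree_le (m := d 0) (natDegree_lin u a)
    have c1 := Polynomial.coeff_pow_of_natDegree_le (m := d 1) (natDegree_lin v b)
    rw [mul_one] at c0 c1
    rw [e2]
    constructor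
    · refine (Polynomial.natDegree_C_mul_le _ _).trans ?_
      refine Polynomial.natDegree_mul_le.trans ?_
      omega
    · rw [Polynomial.coeff_C_mul, ← hdeg, Polynomial.coeff_mul_add_eq_of_natDegree_le e0 e1, c0, c1,
        aeval_monomial, Finsupp.prod_fintype _ _ (by simp), Fin.prod_univ_two]
      simp
  constructor
  · rw [G.as_sum, map_sum]
    exact Polynomial.natDegree_sum_le_of_forall_le _ _ fun d hd => (key d hd).1
  · conv_lhs => rw [G.as_sum]
    conv_rhs => rw [G.as_sum]
    rw [map_sum, map_sum, Polynomial.finsetSum_coeff]
    exact Finset.sum_congr rfl fun d hd => (key d hd).2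

theorem natDegree_line (u v a b : K) (G : MvPolynomial (Fin 2) F) :
    (line u v a b G).natDegree ≤ G.totalDegree := by
  rw [← sum_homogeneousComponent G, map_sum]
  refine Polynomial.natDegree_sum_le_of_forall_le _ _ fun j hj => ?_
  refine (line_homogeneous u v a b (homogeneousComponent_isHomogeneous j G)).1.trans ?_
  rw [sum_homogeneousComponent]
  exact Nat.lt_succ_iff.1 (Finset.mem_range.1 hj)

theorem coeff_line (u v a b : K) (G : MvPolynomial (Fin 2) F) :
    (line u v a b G).coeff G.totalDegree = aeval ![a, b] (homogeneousComponent G.totalDegree G) := by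
  conv_lhs => rw [← sum_homogeneousComponent G]
  rw [map_sum, Polynomial.finsetSum_coeff, Finset.sum_range_succ]
  rw [sum_homogeneousComponent]
  rw [(line_homogeneous u v a b (homogeneousComponent_isHomogeneous _ G)).2]
  rw [Finset.sum_eq_zero, zero_add]
  intro j hj
  apply Polynomial.coeff_eq_zero_of_natDegree_lt
  exact (line_homogeneous u v a b (homogeneousComponent_isHomogeneous j G)).1.trans_lt
    (Finset.mem_range.1 hj)

/-- a zero of a form is proportional to a pair of constants -/
theorem exists_direction [IsAlgClosed F] {a b : K} {H : MvPolynomial (Fin 2) F} {n : ℕ}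
    (hH : H.IsHomogeneous n) (h0 : H ≠ 0) (h : aeval ![a, b] H = 0) :
    ∃ α β : F, (α ≠ 0 ∨ β ≠ 0) ∧ algebraMap F K α * b = algebraMap F K β * a := by
  by_cases hb : b = 0
  · exact ⟨1, 0, Or.inl one_ne_zero, by rw [hb, mul_zero, map_zero, zero_mul]⟩
  set p : Polynomial F := ∑ d ∈ H.support, Polynomial.C (H.coeff d) * Polynomial.X ^ d 0 with hp
  have hdeg : ∀ d ∈ H.support, d 0 + d 1 = n := by
    intro d hd
    have h := hH (mem_support_iff.1 hd)
    rw [Finsupp.weight_apply, Finsupp.sum_fintype _ _ (by simp)] at h
    simpa [Fin.sum_univ_two] using h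
  have hp0 : p ≠ 0 := by
    obtain ⟨d, hd⟩ := support_nonempty.2 h0
    intro hpz
    have h1 : p.coeff (d 0) = H.coeff d := by
      rw [hp, Polynomial.finsetSum_coeff, Finset.sum_eq_single d]
      · rw [Polynomial.coeff_C_mul, Polynomial.coeff_X_pow_self, mul_one]
      · intro d' hd' hne
        rw [Polynomial.coeff_C_mul, Polynomial.coeff_X_pow, if_neg, mul_zero]
        intro h2
        apply hne
        have h3 := hdeg d hd
        have h4 := hdeg d' hd'
        ext i
        fin_cases i
        · exact h2.symm
        · change d' 1 = d 1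
          omega
      · intro h2
        exact absurd hd h2
    rw [hpz, Polynomial.coeff_zero] at h1
    exact mem_support_iff.1 hd h1.symm
  have h2 : b ^ n * Polynomial.aeval (a / b) p = 0 := by
    rw [← h, hp, map_sum, Finset.mul_sum]
    conv_rhs => rw [H.as_sum]
    rw [map_sum]
    refine Finset.sum_congr rfl fun d hd => ?_
    rw [aeval_monomial, Finsupp.prod_fintype _ _ (by simp), Fin.prod_univ_two, map_mul,
      Polynomial.aeval_C, map_pow, Polynomial.aeval_X, ← hdeg d hd, div_pow, pow_add]
    simp only [Matrix.cons_val_zero, Matrix.cons_val_one]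
    field_simp
  have h3 : Polynomial.aeval (a / b) p = 0 := (mul_eq_zero.1 h2).resolve_left (pow_ne_zero _ hb)
  have halg : IsAlgebraic F (a / b) := ⟨p, hp0, h3⟩
  obtain ⟨t, ht⟩ : ∃ t : F, algebraMap F K t = a / b := by
    have hmem : a / b ∈ IntermediateField.adjoin F {a / b} :=
      IntermediateField.mem_adjoin_simple_self F _
    have := IntermediateField.isAlgebraic_adjoin_simple halg.isIntegral
    rw [IntermediateField.eq_bot_of_isAlgClosed_of_isAlgebraic (IntermediateField.adjoin F {a / b}),
      IntermediateField.mem_bot] at hmem
    exact hmem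
  refine ⟨t, 1, Or.inr one_ne_zero, ?_⟩
  rw [ht, map_one, one_mul]
  field_simp

/-- The points of the line through `(u, v)` in the direction `(a, b)` sweep out the plane if the
line is not defined over the field of constants. -/
theorem line_injective [IsAlgClosed F] {u v a b : K} (hab : a ≠ 0 ∨ b ≠ 0)
    (h : ∀ α β : F, (α ≠ 0 ∨ β ≠ 0) → algebraMap F K α * b = algebraMap F K β * a →
      Transcendental F (algebraMap F K β * u - algebraMap F K α * v)) :
    Function.Injective (line (F := F) u v a b) := by
  rw [injective_iff_map_eq_zero]
  intro G hG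
  by_contra hG0
  have htop : aeval ![a, b] (homogeneousComponent G.totalDegree G) = 0 := by
    rw [← coeff_line u v a b G, hG, Polynomial.coeff_zero]
  have htop0 : homogeneousComponent G.totalDegree G ≠ 0 := by
    obtain ⟨d, hd, hd'⟩ := Finset.exists_mem_eq_sup G.support (support_nonempty.2 hG0)
      fun s => s.sum fun _ e => e
    intro h0
    have h1 := congrArg (coeff d) h0
    rw [coeff_homogeneousComponent, coeff_zero, if_pos] at h1
    · exact mem_support_iff.1 hd h1
    · exact hd'.symm
  obtain ⟨α, β, hαβ, hdir⟩ := exists_direction (homogeneousComponent_isHomogeneous _ G) htop0 htop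
  have ht := h α β hαβ hdir
  have hev : ∀ c : K, aeval ![u + a * c, v + b * c] G = 0 := fun c => by
    rw [← eval_line, hG, Polynomial.eval_zero]
  apply hG0
  apply MvPolynomial.funext
  intro x
  rw [map_zero]
  set w : K := algebraMap F K β * u - algebraMap F K α * v with hw
  by_cases hα : α = 0
  · have hβ : β ≠ 0 := hαβ.resolve_left (not_not.2 hα)
    have ha : a = 0 := by
      rw [hα, map_zero, zero_mul] at hdir
      exact (mul_eq_zero.1 hdir.symm).resolve_left (by simpa using hβ)
    have hb : b ≠ 0 := hab.resolve_left (not_not.2 ha)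
    -- the second coordinate is arbitrary
    set q : Polynomial F := aeval ![Polynomial.C β⁻¹ * Polynomial.X, Polynomial.C (x 1)] G with hq
    have h1 : Polynomial.aeval w q = 0 := by
      have h2 := hev ((algebraMap F K (x 1) - v) / b)
      rw [← h2, hq]
      have h3 : (Polynomial.aeval w).comp (aeval ![Polynomial.C β⁻¹ * Polynomial.X, Polynomial.C (x 1)]
          : MvPolynomial (Fin 2) F →ₐ[F] Polynomial F) =
          aeval ![u + a * ((algebraMap F K (x 1) - v) / b), v + b * ((algebraMap F K (x 1) - v) / b)] := by
        apply MvPolynomial.algHom_ext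
        intro i
        fin_cases i
        · simp [hw, hα, ha, hβ]
        · simp
          field_simp
          ring
      exact DFunLike.congr_fun h3 G
    have h4 : q = 0 := by
      by_contra h5
      exact ht ⟨q, h5, h1⟩
    have h5 := congrArg (Polynomial.eval (β * x 0)) h4
    rw [Polynomial.eval_zero] at h5
    rw [← h5, hq]
    have h6 : (Polynomial.aeval (β * x 0)).comp (aeval ![Polynomial.C β⁻¹ * Polynomial.X,
        Polynomial.C (x 1)] : MvPolynomial (Fin 2) F →ₐ[F] Polynomial F) = aeval x := by
      apply MvPolynomial.algHom_ext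
      intro i
      fin_cases i
      · simp [hβ]
      · simp
    have h7 := DFunLike.congr_fun h6 G
    rw [AlgHom.comp_apply, Polynomial.coe_aeval_eq_eval] at h7
    exact h7.symm
  · set q : Polynomial F := aeval ![Polynomial.C (x 0),
      Polynomial.C α⁻¹ * (Polynomial.C (β * x 0) - Polynomial.X)] G with hq
    have ha : a ≠ 0 := by
      intro ha
      rw [ha, mul_zero] at hdir
      have := (mul_eq_zero.1 hdir).resolve_left (by simpa using hα)
      exact hab.elim (fun h => h ha) fun h => h this
    have hα' : algebraMap F K α ≠ 0 := by simpa using hα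
    have h1 : Polynomial.aeval w q = 0 := by
      have h2 := hev ((algebraMap F K (x 0) - u) / a)
      rw [← h2, hq]
      have h3 : (Polynomial.aeval w).comp (aeval ![Polynomial.C (x 0),
          Polynomial.C α⁻¹ * (Polynomial.C (β * x 0) - Polynomial.X)]
          : MvPolynomial (Fin 2) F →ₐ[F] Polynomial F) =
          aeval ![u + a * ((algebraMap F K (x 0) - u) / a), v + b * ((algebraMap F K (x 0) - u) / a)] := by
        apply MvPolynomial.algHom_ext
        intro i
        fin_cases i
        · simp
          field_simp
          ring
        · simp [hw]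
          have hb : b = algebraMap F K β * a / algebraMap F K α := by
            rw [← hdir]; field_simp
          rw [hb]
          field_simp
          ring
      exact DFunLike.congr_fun h3 G
    have h4 : q = 0 := by
      by_contra h5
      exact ht ⟨q, h5, h1⟩
    have h5 := congrArg (Polynomial.eval (β * x 0 - α * x 1)) h4
    rw [Polynomial.eval_zero] at h5
    rw [← h5, hq]
    have h6 : (Polynomial.aeval (β * x 0 - α * x 1)).comp (aeval ![Polynomial.C (x 0),
        Polynomial.C α⁻¹ * (Polynomial.C (β * x 0) - Polynomial.X)] :
          MvPolynomial (Fin 2) F →ₐ[F] Polynomial F) = aeval x := by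
      apply MvPolynomial.algHom_ext
      intro i
      fin_cases i
      · simp
      · simp [hα]
    have h7 := DFunLike.congr_fun h6 G
    rw [AlgHom.comp_apply, Polynomial.coe_aeval_eq_eval] at h7
    exact h7.symm

end

end Pool.Agent.Helper73.QU
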